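import Mathlib

set_option autoImplicit false

/-!
# MP_0c183c_co, block (i): transcendence degree of a set of elements, specialisations, conjugacy

`trd k s` is the transcendence degree over the field `k` of the field generated by the (finite) set `s`,
as the rank function of the algebraic independence matroid.
`Sp k x y`: every polynomial relation over `k` of the family `x` is a relation of the family `y`.
-/

namespace Pool.Agent.Lib.MP_0c183c_co_P9L

open Set AlgebraicIndependent

section Trd

variable (k : Type*) {Ω : Type*} [Field k] [Field Ω] [Algebra k Ω]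

/-- Transcendence degree over `k` of a set of elements (meaningful for finite sets). -/
noncomputable def trd (s : Set Ω) : ℕ := ((matroid k Ω).eRk s).toNat

variable {k}

lemma eRk_ne_top {s : Set Ω} (hs : s.Finite) : (matroid k Ω).eRk s ≠ ⊤ :=
  ne_top_of_le_ne_top (by simpa using hs) ((matroid k Ω).eRk_le_encard s)

lemma coe_trd {s : Set Ω} (hs : s.Finite) : ((trd k s : ℕ) : ℕ∞) = (matroid k Ω).eRk s :=
  ENat.natCast_toNat (eRk_ne_top hs)

lemma trd_mono {s t : Set Ω} (ht : t.Finite) (h : s ⊆ t) : trd k s ≤ trd k t :=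
  ENat.toNat_le_toNat ((matroid k Ω).eRk_mono h) (eRk_ne_top ht)

lemma trd_le_ncard {s : Set Ω} (hs : s.Finite) : trd k s ≤ s.ncard := by
  have h := (matroid k Ω).eRk_le_encard s
  rw [← coe_trd hs, ← hs.cast_ncard_eq] at h
  exact_mod_cast h

@[simp] lemma trd_empty : trd k (∅ : Set Ω) = 0 := by simp [trd]

/-- Submodularity, in the form used with sets of entries. -/
lemma trd_union_add_le {s t r : Set Ω} (hs : s.Finite) (ht : t.Finite) (hrs : r ⊆ s) (hrt : r ⊆ t) :
    trd k (s ∪ t) + trd k r ≤ trd k s + trd k t := by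
  have h1 := (matroid k Ω).eRk_inter_add_eRk_union_le s t
  have h2 := (matroid k Ω).eRk_mono (subset_inter hrs hrt)
  have h3 : (matroid k Ω).eRk (s ∪ t) + (matroid k Ω).eRk r ≤
      (matroid k Ω).eRk s + (matroid k Ω).eRk t := by
    calc _ ≤ (matroid k Ω).eRk (s ∪ t) + (matroid k Ω).eRk (s ∩ t) := by gcongr
      _ = (matroid k Ω).eRk (s ∩ t) + (matroid k Ω).eRk (s ∪ t) := add_comm _ _
      _ ≤ _ := h1
  rw [← coe_trd hs, ← coe_trd ht, ← coe_trd (hs.union ht), ← coe_trd (hs.subset hrs)] at h3
  exact_mod_cast h3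

lemma trd_union_le {s t : Set Ω} (hs : s.Finite) (ht : t.Finite) :
    trd k (s ∪ t) ≤ trd k s + trd k t := by
  have := trd_union_add_le (k := k) hs ht (empty_subset s) (empty_subset t)
  simpa using this

/-- Diminishing returns. -/
lemma trd_union_sub_le {s t r : Set Ω} (ht : t.Finite) (hr : r.Finite) (hst : s ⊆ t) :
    trd k (t ∪ r) + trd k s ≤ trd k t + trd k (s ∪ r) := by
  have h := trd_union_add_le (k := k) ht ((ht.subset hst).union hr) hst subset_union_left
  rwa [← union_assoc, union_eq_self_of_subset_right hst] at h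

lemma mem_closure_iff {s : Set Ω} {a : Ω} :
    a ∈ (matroid k Ω).closure s ↔ IsAlgebraic (Algebra.adjoin k s) a := by
  rw [matroid_closure_eq, SetLike.mem_coe, Subalgebra.mem_algebraicClosure]

open scoped IntermediateField.algebraAdjoinAdjoin in
lemma isAlgebraic_adjoin_iff {s : Set Ω} {a : Ω} :
    IsAlgebraic (Algebra.adjoin k s) a ↔ IsAlgebraic (IntermediateField.adjoin k s) a :=
  IsFractionRing.isAlgebraic_iff (Algebra.adjoin k s) (IntermediateField.adjoin k s) Ω

lemma mem_closure_iff' {s : Set Ω} {a : Ω} :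
    a ∈ (matroid k Ω).closure s ↔ IsAlgebraic (IntermediateField.adjoin k s) a :=
  mem_closure_iff.trans isAlgebraic_adjoin_iff

lemma trd_insert_le {s : Set Ω} (hs : s.Finite) (a : Ω) : trd k (insert a s) ≤ trd k s + 1 := by
  have h := (matroid k Ω).eRk_insert_le_add_one a s
  rw [← coe_trd hs, ← coe_trd (hs.insert a)] at h
  exact_mod_cast h

lemma trd_insert_of_transcendental {s : Set Ω} (hs : s.Finite) {a : Ω}
    (ha : Transcendental (IntermediateField.adjoin k s) a) :
    trd k (insert a s) = trd k s + 1 := by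
  have h := (matroid k Ω).eRk_insert_eq_add_one (e := a) (X := s)
    ⟨mem_univ a, fun h => ha (mem_closure_iff'.mp h)⟩
  rw [← coe_trd hs, ← coe_trd (hs.insert a)] at h
  exact_mod_cast h

/-- Adding elements which are algebraic does not change the transcendence degree. -/
lemma trd_union_of_isAlgebraic {s t : Set Ω}
    (h : ∀ a ∈ t, IsAlgebraic (IntermediateField.adjoin k s) a) : trd k (s ∪ t) = trd k s := by
  have h1 : t ⊆ (matroid k Ω).closure s := fun a ha => mem_closure_iff'.mpr (h a ha)
  have h2 : (matroid k Ω).eRk (s ∪ t) = (matroid k Ω).eRk s := by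
    refine le_antisymm ?_ ((matroid k Ω).eRk_mono subset_union_left)
    rw [← (matroid k Ω).eRk_closure_eq s]
    exact (matroid k Ω).eRk_mono (union_subset ((matroid k Ω).subset_closure s (subset_univ _)) h1)
  simp only [trd, h2]

lemma trd_insert_of_isAlgebraic {s : Set Ω} {a : Ω}
    (h : IsAlgebraic (IntermediateField.adjoin k s) a) : trd k (insert a s) = trd k s := by
  have := trd_union_of_isAlgebraic (k := k) (s := s) (t := {a}) (by simpa using h)
  rwa [union_singleton] at this

lemma trd_le_of_isAlgebraic {s t : Set Ω} (hs : s.Finite) (ht : t.Finite)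
    (h : ∀ a ∈ t, IsAlgebraic (IntermediateField.adjoin k s) a) : trd k t ≤ trd k s := by
  rw [← trd_union_of_isAlgebraic h]
  exact trd_mono (hs.union ht) subset_union_right

/-- Equality of transcendence degrees means algebraicity. -/
lemma trd_union_eq_iff {s t : Set Ω} (hs : s.Finite) (ht : t.Finite) :
    trd k (s ∪ t) = trd k s ↔ ∀ a ∈ t, IsAlgebraic (IntermediateField.adjoin k s) a := by
  refine ⟨fun h a ha => ?_, trd_union_of_isAlgebraic⟩
  by_contra hna
  have h1 := trd_insert_of_transcendental (k := k) hs hna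
  have h2 : insert a s ⊆ s ∪ t := insert_subset (Or.inr ha) subset_union_left
  have h3 := trd_mono (k := k) (hs.union ht) h2
  omega

lemma trd_insert_eq_iff {s : Set Ω} (hs : s.Finite) {a : Ω} :
    trd k (insert a s) = trd k s ↔ IsAlgebraic (IntermediateField.adjoin k s) a := by
  have := trd_union_eq_iff (k := k) (s := s) (t := {a}) hs (finite_singleton a)
  simpa using this

lemma trd_insert_eq_succ_iff {s : Set Ω} (hs : s.Finite) {a : Ω} :
    trd k (insert a s) = trd k s + 1 ↔ Transcendental (IntermediateField.adjoin k s) a := by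
  refine ⟨fun h hn => ?_, trd_insert_of_transcendental hs⟩
  have := trd_insert_of_isAlgebraic (k := k) hn
  omega

/-- A family is algebraically independent iff its transcendence degree is its size. -/
lemma algebraicIndependent_iff_trd {ι : Type*} [Fintype ι] {x : ι → Ω} :
    AlgebraicIndependent k x ↔ trd k (range x) = Fintype.card ι := by
  constructor
  · intro h
    have h1 : (matroid k Ω).Indep (range x) := matroid_indep_iff.mpr h.to_subtype_range
    have h2 := h1.eRk_eq_encard
    rw [← coe_trd (finite_range x), ← (finite_range x).cast_ncard_eq] at h2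
    have h3 : (range x).ncard = Fintype.card ι := by
      rw [← image_univ, ncard_image_of_injective _ h.injective, ncard_univ, Nat.card_eq_fintype_card]
    rw [← h3]
    exact_mod_cast h2
  · intro h
    have h1 : (range x).ncard ≤ Fintype.card ι := by
      rw [← image_univ]
      refine (ncard_image_le finite_univ).trans ?_
      rw [ncard_univ, Nat.card_eq_fintype_card]
    have h2 := trd_le_ncard (k := k) (finite_range x)
    have h3 : (range x).ncard = Fintype.card ι := le_antisymm h1 (h ▸ h2)
    have hinj : Function.Injective x := by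
      have h4 : Nat.card (range x) = Nat.card ι := by
        rw [Nat.card_coe_set_eq, h3, Nat.card_eq_fintype_card]
      have h5 : Function.Surjective (rangeFactorization x) := rangeFactorization_surjective
      have h6 : Function.Bijective (rangeFactorization x) :=
        h5.bijective_of_nat_card_le (le_of_eq h4.symm)
      exact fun a b hab => h6.1 (Subtype.ext hab)
    have h7 : (matroid k Ω).Indep (range x) := by
      rw [(matroid k Ω).indep_iff_eRk_eq_encard_of_finite (finite_range x),
        ← coe_trd (finite_range x), ← (finite_range x).cast_ncard_eq, h3, h]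
    exact (AlgebraicIndependent.of_subtype_range hinj (matroid_indep_iff.mp h7))

lemma eRk_le_eRk_image {Ω' : Type*} [Field Ω'] [Algebra k Ω'] (σ : Ω →ₐ[k] Ω') (s : Set Ω) :
    (matroid k Ω).eRk s ≤ (matroid k Ω').eRk (σ '' s) := by
  obtain ⟨I, hI⟩ := (matroid k Ω).exists_isBasis s (subset_univ _)
  rw [← hI.encard_eq_eRk]
  have h1 : AlgebraicIndependent k ((↑) : I → Ω) := matroid_indep_iff.mp hI.indep
  have h2 : AlgebraicIndependent k (σ ∘ ((↑) : I → Ω)) := h1.map' σ.injective
  have h3 : (matroid k Ω').Indep (range (σ ∘ ((↑) : I → Ω))) :=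
    matroid_indep_iff.mpr h2.to_subtype_range
  rw [range_comp, Subtype.range_coe] at h3
  have h4 := h3.encard_le_eRk_of_subset (image_mono hI.subset)
  rwa [(show Function.Injective (σ : Ω → Ω') from σ.injective).encard_image] at h4

lemma trd_image {Ω' : Type*} [Field Ω'] [Algebra k Ω'] (σ : Ω ≃ₐ[k] Ω') (s : Set Ω) :
    trd k (σ '' s) = trd k s := by
  have h1 := eRk_le_eRk_image (k := k) σ.toAlgHom s
  have h2 := eRk_le_eRk_image (k := k) σ.symm.toAlgHom (σ '' s)
  have h3 : σ.symm.toAlgHom '' (σ '' s) = s := by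
    rw [← image_comp]
    convert image_id s
    simp
  rw [h3] at h2
  have h4 : (matroid k Ω').eRk (σ '' s) = (matroid k Ω).eRk s := le_antisymm h2 h1
  rw [trd, trd, h4]

/-- Every finite family contains a subfamily which is a transcendence basis. -/
lemma exists_basis_subfamily {ι : Type*} [Finite ι] (x : ι → Ω) :
    ∃ J : Set ι, AlgebraicIndependent k (fun j : J => x j) ∧ J.ncard = trd k (range x) ∧
      ∀ i, IsAlgebraic (Algebra.adjoin k (range (fun j : J => x j))) (x i) := by
  obtain ⟨B, hB⟩ := (matroid k Ω).exists_isBasis (range x) (subset_univ _)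
  have hBx : B ⊆ range x := hB.subset
  choose g hg using fun b : B => hBx b.2
  have hgi : Function.Injective g := fun a b hab => by
    apply Subtype.ext; rw [← hg a, ← hg b, hab]
  have hfin : (range x).Finite := finite_range x
  have hBf : B.Finite := hfin.subset hBx
  refine ⟨range g, ?_, ?_, ?_⟩
  · have h1 : AlgebraicIndependent k ((↑) : B → Ω) := matroid_indep_iff.mp hB.indep
    have h2 := h1.comp (fun j : range g => (Equiv.ofInjective g hgi).symm j)
      (Equiv.injective _)
    convert h2 using 1
    funext j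
    obtain ⟨b, hb⟩ := j.2
    have hj : j = Equiv.ofInjective g hgi b := Subtype.ext hb.symm
    have hj2 : (Equiv.ofInjective g hgi).symm j = b := by rw [hj, Equiv.symm_apply_apply]
    show x j = ((Equiv.ofInjective g hgi).symm j : Ω)
    rw [hj2, ← hb, hg b]
  · have h3 : (range g).ncard = B.ncard := by
      rw [← image_univ, ncard_image_of_injective _ hgi, ncard_univ, Nat.card_coe_set_eq]
    have h4 := hB.encard_eq_eRk
    rw [← coe_trd hfin, ← hBf.cast_ncard_eq] at h4
    rw [h3]
    exact_mod_cast h4
  · intro i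
    have h5 : range (fun j : range g => x j) = B := by
      ext z
      constructor
      · rintro ⟨⟨_, ⟨b, rfl⟩⟩, rfl⟩
        simp [hg b]
      · intro hz
        exact ⟨⟨g ⟨z, hz⟩, ⟨_, rfl⟩⟩, hg ⟨z, hz⟩⟩
    rw [h5]
    exact (matroid_isBasis_iff.mp hB).2.2 _ ⟨i, rfl⟩

end Trd

section Sp

open MvPolynomial

variable (k : Type*) {ι κ R R' R'' : Type*} [CommRing k] [CommRing R] [Algebra k R]
  [CommRing R'] [Algebra k R'] [CommRing R''] [Algebra k R'']

/-- `y` satisfies every polynomial relation over `k` of `x`. -/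
def Sp (x : ι → R) (y : ι → R') : Prop :=
  ∀ p : MvPolynomial ι k, aeval x p = 0 → aeval y p = 0

variable {k}

lemma Sp.refl (x : ι → R) : Sp k x x := fun _ h => h

lemma Sp.trans {x : ι → R} {y : ι → R'} {z : ι → R''} (h : Sp k x y) (h' : Sp k y z) :
    Sp k x z := fun p hp => h' p (h p hp)

/-- Subfamilies (and renamings). -/
lemma Sp.comp {x : ι → R} {y : ι → R'} (h : Sp k x y) (f : κ → ι) : Sp k (x ∘ f) (y ∘ f) := by
  intro p hp
  rw [← aeval_rename] at hp ⊢
  exact h _ hp

/-- Polynomial expressions. -/
lemma Sp.aeval {x : ι → R} {y : ι → R'} (h : Sp k x y) (q : κ → MvPolynomial ι k) :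
    Sp k (fun j => aeval x (q j)) (fun j => aeval y (q j)) := by
  intro p hp
  rw [← aeval_bind₁] at hp ⊢
  exact h _ hp

lemma Sp.map (x : ι → R) (φ : R →ₐ[k] R') : Sp k x (fun i => φ (x i)) := by
  intro p hp
  rw [← comp_aeval_apply, hp, map_zero]

lemma Sp.of_injective (x : ι → R) (φ : R →ₐ[k] R') (hφ : Function.Injective φ) :
    Sp k (fun i => φ (x i)) x := by
  intro p hp
  rw [← comp_aeval_apply] at hp
  exact hφ (by rw [hp, map_zero])

/-- A specialisation is an algebra homomorphism of the generated algebras. -/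
lemma Sp.exists_algHom {x : ι → R} {y : ι → R'} (h : Sp k x y) :
    ∃ φ : Algebra.adjoin k (range x) →ₐ[k] R',
      ∀ p : MvPolynomial ι k, ∀ (hp : MvPolynomial.aeval x p ∈ Algebra.adjoin k (range x)),
        φ ⟨MvPolynomial.aeval x p, hp⟩ = MvPolynomial.aeval y p := by
  have hA : ∀ p : MvPolynomial ι k, MvPolynomial.aeval x p ∈ Algebra.adjoin k (range x) := by
    intro p
    rw [Algebra.adjoin_range_eq_range_aeval]
    exact ⟨p, rfl⟩
  let f : MvPolynomial ι k →ₐ[k] Algebra.adjoin k (range x) :=
    (MvPolynomial.aeval x).codRestrict (Algebra.adjoin k (range x)) hA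
  have hf : Function.Surjective f := by
    rintro ⟨a, ha⟩
    rw [Algebra.adjoin_range_eq_range_aeval] at ha
    obtain ⟨p, hp⟩ := ha
    exact ⟨p, Subtype.ext hp⟩
  have hk : RingHom.ker f ≤ RingHom.ker (MvPolynomial.aeval y : MvPolynomial ι k →ₐ[k] R') := by
    intro p hp
    refine h p ?_
    have h1 := (RingHom.mem_ker).mp hp
    exact congrArg Subtype.val h1
  refine ⟨AlgHom.liftOfSurjective f hf (MvPolynomial.aeval y) hk, fun p hp => ?_⟩
  have h2 := AlgHom.liftOfSurjective_apply f hf (MvPolynomial.aeval y) hk p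
  exact h2

lemma aeval_sumElim_eq {S : Type*} [CommRing S] [Algebra k S] (w : κ → S) (z : ι → S)
    (p : MvPolynomial (κ ⊕ ι) k) :
    MvPolynomial.aeval (Sum.elim w z) p =
      MvPolynomial.eval₂ ((MvPolynomial.aeval z : MvPolynomial ι k →ₐ[k] S) : MvPolynomial ι k →+* S) w
        (sumAlgEquiv k κ ι p) := by
  induction p using MvPolynomial.induction_on with
  | C a => simp [sumAlgEquiv_C_inl]
  | add p q hp hq => rw [map_add, map_add, eval₂_add, hp, hq]
  | mul_X p i hp =>
    rw [map_mul, map_mul, eval₂_mul, hp]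
    congr 1
    cases i with
    | inl j => simp
    | inr j => simp

end Sp

section SpEquiv

open MvPolynomial

variable {k : Type*} {ι R R' : Type*} [CommRing k] [CommRing R] [Algebra k R]
  [CommRing R'] [Algebra k R']

/-- Families with the same relations generate isomorphic algebras. -/
lemma Sp.exists_algEquiv {x : ι → R} {y : ι → R'} (h : Sp k x y) (h' : Sp k y x) :
    ∃ e : Algebra.adjoin k (range x) ≃ₐ[k] Algebra.adjoin k (range y),
      ∀ p : MvPolynomial ι k, ∀ (hp : MvPolynomial.aeval x p ∈ Algebra.adjoin k (range x)),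
        (e ⟨MvPolynomial.aeval x p, hp⟩ : R') = MvPolynomial.aeval y p := by
  have hxy : RingHom.ker (MvPolynomial.aeval x : MvPolynomial ι k →ₐ[k] R) =
      RingHom.ker (MvPolynomial.aeval y : MvPolynomial ι k →ₐ[k] R') := by
    ext p
    rw [RingHom.mem_ker, RingHom.mem_ker]
    exact ⟨h p, h' p⟩
  let e1 := Subalgebra.equivOfEq _ _ (Algebra.adjoin_range_eq_range_aeval k x)
  let e2 := Ideal.quotientKerEquivRange (MvPolynomial.aeval x : MvPolynomial ι k →ₐ[k] R)
  let e3 := Ideal.quotientEquivAlgOfEq k hxy
  let e4 := Ideal.quotientKerEquivRange (MvPolynomial.aeval y : MvPolynomial ι k →ₐ[k] R')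
  let e5 := Subalgebra.equivOfEq _ _ (Algebra.adjoin_range_eq_range_aeval k y)
  refine ⟨e1.trans (e2.symm.trans (e3.trans (e4.trans e5.symm))), fun p hp => ?_⟩
  have h2 : e2 (Ideal.Quotient.mk _ p) = e1 ⟨MvPolynomial.aeval x p, hp⟩ := rfl
  have h3 : e2.symm (e1 ⟨MvPolynomial.aeval x p, hp⟩) = Ideal.Quotient.mk _ p := by
    rw [← h2, AlgEquiv.symm_apply_apply]
  show ((e5.symm (e4 (e3 (e2.symm (e1 ⟨MvPolynomial.aeval x p, hp⟩))))) : R') = _
  rw [h3]
  rfl

end SpEquiv

section SpField

open MvPolynomial

variable {k : Type*} {ι κ Ω R' : Type*} [Field k] [Field Ω] [Algebra k Ω]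
  [CommRing R'] [Algebra k R']

/-- Elements which are independent over `k(x)` may be specialised arbitrarily. -/
lemma Sp.sum {x : ι → Ω} {y : ι → R'} (h : Sp k x y) {b : κ → Ω}
    (hb : AlgebraicIndependent (Algebra.adjoin k (range x)) b) (c : κ → R') :
    Sp k (Sum.elim b x) (Sum.elim c y) := by
  intro p hp
  rw [aeval_sumElim_eq] at hp ⊢
  set P := sumAlgEquiv k κ ι p with hP
  have hA : ∀ p : MvPolynomial ι k, MvPolynomial.aeval x p ∈ Algebra.adjoin k (range x) := by
    intro p
    rw [Algebra.adjoin_range_eq_range_aeval]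
    exact ⟨p, rfl⟩
  let f : MvPolynomial ι k →ₐ[k] Algebra.adjoin k (range x) :=
    (MvPolynomial.aeval x).codRestrict (Algebra.adjoin k (range x)) hA
  have h1 : MvPolynomial.aeval b (MvPolynomial.map f.toRingHom P) = 0 := by
    rw [aeval_def, eval₂_map]
    exact hp
  have h2 : MvPolynomial.map f.toRingHom P = 0 :=
    hb.eq_zero_of_aeval_eq_zero _ h1
  have h3 : MvPolynomial.map
      ((MvPolynomial.aeval y : MvPolynomial ι k →ₐ[k] R') : MvPolynomial ι k →+* R') P = 0 := by
    ext m
    rw [coeff_map, coeff_zero]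
    refine h _ ?_
    have h4 := congrArg (MvPolynomial.coeff m) h2
    rw [coeff_map, coeff_zero] at h4
    exact congrArg Subtype.val h4
  rw [eval₂_eq_eval_map, h3, map_zero]

/-- A transcendental element over `k(x)` may be specialised arbitrarily. -/
lemma Sp.option {x : ι → Ω} {y : ι → R'} (h : Sp k x y) {t : Ω}
    (ht : Transcendental (IntermediateField.adjoin k (range x)) t) (c : R') :
    Sp k (fun o : Option ι => o.elim t x) (fun o : Option ι => o.elim c y) := by
  have h1 : AlgebraicIndependent (Algebra.adjoin k (range x)) (fun _ : Unit => t) := by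
    rw [algebraicIndependent_unique_type_iff]
    exact fun hn => ht (isAlgebraic_adjoin_iff.mp hn)
  have h2 := (h.sum h1 (fun _ : Unit => c)).comp
    (fun o : Option ι => o.elim (Sum.inl ()) Sum.inr)
  convert h2 using 1 <;> funext o <;> cases o <;> rfl

variable {Ω' : Type*} [Field Ω'] [Algebra k Ω']

/-- The transcendence degree cannot increase under specialisation. -/
lemma Sp.trd_le [Finite ι] {x : ι → Ω} {y : ι → Ω'} (h : Sp k x y) :
    trd k (range y) ≤ trd k (range x) := by
  obtain ⟨J, hJ, hJc, -⟩ := exists_basis_subfamily (k := k) y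
  have h1 : AlgebraicIndependent k (fun j : J => x j) := by
    rw [algebraicIndependent_iff]
    intro p hp
    exact (algebraicIndependent_iff.mp hJ) p ((h.comp (fun j : J => (j : ι))) p hp)
  have : Fintype J := Fintype.ofFinite J
  have h2 := algebraicIndependent_iff_trd.mp h1
  rw [← hJc, ← Nat.card_coe_set_eq, Nat.card_eq_fintype_card, ← h2]
  exact trd_mono (finite_range x) (by rintro _ ⟨j, rfl⟩; exact ⟨_, rfl⟩)

/-- A specialisation between families of the same transcendence degree is an isomorphism. -/
lemma Sp.symm_of_trd [Finite ι] {x : ι → Ω} {y : ι → Ω'} (h : Sp k x y)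
    (hle : trd k (range x) ≤ trd k (range y)) : Sp k y x := by
  obtain ⟨J, hJ, hJc, -⟩ := exists_basis_subfamily (k := k) y
  have : Fintype J := Fintype.ofFinite J
  have h1 : AlgebraicIndependent k (fun j : J => x j) := by
    rw [algebraicIndependent_iff]
    intro p hp
    exact (algebraicIndependent_iff.mp hJ) p ((h.comp (fun j : J => (j : ι))) p hp)
  have h2 := algebraicIndependent_iff_trd.mp h1
  -- `x` is algebraic over the subfamily
  have hsub : range (fun j : J => x j) ⊆ range x := by rintro _ ⟨j, rfl⟩; exact ⟨_, rfl⟩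
  have h3 : trd k (range (fun j : J => x j) ∪ range x) = trd k (range (fun j : J => x j)) := by
    refine le_antisymm ?_ (trd_mono ((finite_range _).union (finite_range x)) subset_union_left)
    rw [union_eq_self_of_subset_left hsub, h2, ← Nat.card_eq_fintype_card, Nat.card_coe_set_eq, hJc]
    exact hle
  have h4 := (trd_union_eq_iff (finite_range _) (finite_range x)).mp h3
  intro p hp
  by_contra hne
  set a := MvPolynomial.aeval x p with ha
  set A := Algebra.adjoin k (range (fun j : J => x j)) with hAdef
  have h5 : IsAlgebraic A a := by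
    have h6 : IsAlgebraic (IntermediateField.adjoin k (range (fun j : J => x j))) a := by
      have h7 : ∀ i, x i ∈ (algebraicClosure (IntermediateField.adjoin k (range (fun j : J => x j))) Ω) :=
        fun i => mem_algebraicClosure_iff.mpr (h4 _ ⟨i, rfl⟩)
      have h8 : a ∈ Subalgebra.restrictScalars k
          (algebraicClosure (IntermediateField.adjoin k (range (fun j : J => x j))) Ω).toSubalgebra := by
        rw [ha]
        have h9 : Algebra.adjoin k (range x) ≤ Subalgebra.restrictScalars k
            (algebraicClosure (IntermediateField.adjoin k (range (fun j : J => x j))) Ω).toSubalgebra := by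
          refine Algebra.adjoin_le ?_
          rintro _ ⟨i, rfl⟩
          exact h7 i
        refine h9 ?_
        rw [Algebra.adjoin_range_eq_range_aeval]
        exact ⟨p, rfl⟩
      exact mem_algebraicClosure_iff.mp h8
    exact isAlgebraic_adjoin_iff.mpr h6
  obtain ⟨q, hq0, hq⟩ := h5.exists_nonzero_coeff_and_aeval_eq_zero
    (mem_nonZeroDivisors_of_ne_zero hne)
  -- lift the coefficients to polynomials
  let e := h1.aevalEquiv
  let Q : Polynomial (MvPolynomial J k) := q.map (e.symm : A ≃ₐ[k] MvPolynomial J k).toRingHom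
  let P : MvPolynomial ι k := Polynomial.eval₂
    ((MvPolynomial.rename (fun j : J => (j : ι))).toRingHom) p Q
  have hPx : MvPolynomial.aeval x P = 0 := by
    have : MvPolynomial.aeval x P = Polynomial.aeval a q := by
      show (MvPolynomial.aeval x : MvPolynomial ι k →ₐ[k] Ω).toRingHom (Polynomial.eval₂ _ p Q) = _
      rw [Polynomial.hom_eval₂, Polynomial.aeval_def, Polynomial.eval₂_map]
      congr 1
      ext b
      obtain ⟨r, rfl⟩ := e.surjective b
      simp [e, aeval_rename, AlgebraicIndependent.aevalEquiv_apply_coe]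
      rfl
    rw [this, hq]
  have hPy := h P hPx
  have hPy' : MvPolynomial.aeval y P = MvPolynomial.aeval (fun j : J => y j) (Q.coeff 0) := by
    show (MvPolynomial.aeval y : MvPolynomial ι k →ₐ[k] Ω').toRingHom (Polynomial.eval₂ _ p Q) = _
    rw [Polynomial.hom_eval₂]
    have : (MvPolynomial.aeval y : MvPolynomial ι k →ₐ[k] Ω').toRingHom p = 0 := hp
    rw [this, Polynomial.eval₂_at_zero]
    show MvPolynomial.aeval y (MvPolynomial.rename (fun j : J => (j : ι)) (Q.coeff 0)) = _
    rw [aeval_rename]
    rfl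
  rw [hPy'] at hPy
  have h10 := (algebraicIndependent_iff.mp hJ) _ hPy
  apply hq0
  have h11 : e.symm (q.coeff 0) = 0 := by
    rw [← h10]
    exact (Polynomial.coeff_map (e.symm : A ≃ₐ[k] MvPolynomial J k).toRingHom 0).symm
  exact (map_eq_zero_iff e.symm e.symm.injective).mp h11

lemma trd_range_eq_of_sp [Finite ι] {x : ι → Ω} {y : ι → Ω'} (h : Sp k x y) (h' : Sp k y x) :
    trd k (range x) = trd k (range y) := le_antisymm h'.trd_le h.trd_le

/-- Transcendence degrees of subfamilies agree for families with the same relations. -/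
lemma Sp.trd_image_eq [Finite ι] {x : ι → Ω} {y : ι → Ω'} (h : Sp k x y) (h' : Sp k y x)
    (J : Set ι) : trd k (x '' J) = trd k (y '' J) := by
  have h1 : trd k (range (x ∘ fun j : J => (j : ι))) = trd k (range (y ∘ fun j : J => (j : ι))) :=
    trd_range_eq_of_sp (h.comp _) (h'.comp _)
  have e1 : range (x ∘ fun j : J => (j : ι)) = x '' J := by
    rw [range_comp, Subtype.range_coe]
  have e2 : range (y ∘ fun j : J => (j : ι)) = y '' J := by
    rw [range_comp, Subtype.range_coe]
  rwa [e1, e2] at h1

/-- Conjugacy: families with the same relations are conjugate by an automorphism of the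
algebraically closed field. -/
theorem Sp.exists_aut [Finite ι] [IsAlgClosed Ω] {x y : ι → Ω} (h : Sp k x y) (h' : Sp k y x) :
    ∃ σ : Ω ≃ₐ[k] Ω, ∀ i, σ (x i) = y i := by
  classical
  obtain ⟨κ, b, hb⟩ := exists_isTranscendenceBasis' (Algebra.adjoin k (range x)) Ω
  obtain ⟨κ', c, hc⟩ := exists_isTranscendenceBasis' (Algebra.adjoin k (range y)) Ω
  obtain ⟨e, -⟩ := h.exists_algEquiv h'
  -- the two bases have the same cardinality
  have hcard : Cardinal.mk κ = Cardinal.mk κ' := by
    have h1 : Algebra.trdeg k (Algebra.adjoin k (range x)) + Algebra.trdeg (Algebra.adjoin k (range x)) Ω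
        = Algebra.trdeg k Ω := trdeg_add_eq k (Algebra.adjoin k (range x))
    have h2 : Algebra.trdeg k (Algebra.adjoin k (range y)) + Algebra.trdeg (Algebra.adjoin k (range y)) Ω
        = Algebra.trdeg k Ω := trdeg_add_eq k (Algebra.adjoin k (range y))
    have h3 : Algebra.trdeg k (Algebra.adjoin k (range x)) = Algebra.trdeg k (Algebra.adjoin k (range y)) :=
      e.trdeg_eq
    have hft : Algebra.FiniteType k (Algebra.adjoin k (range x)) := by
      rw [← Subalgebra.fg_iff_finiteType]
      exact Subalgebra.fg_def.mpr ⟨range x, finite_range x, rfl⟩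
    have h4 : Algebra.trdeg k (Algebra.adjoin k (range x)) < Cardinal.aleph0 :=
      trdeg_lt_aleph0_of_finiteType
    rw [hb.cardinalMk_eq_trdeg, hc.cardinalMk_eq_trdeg]
    refine Cardinal.eq_of_add_eq_add_left (a := Algebra.trdeg k (Algebra.adjoin k (range x))) ?_ h4
    rw [h1, h3, h2]
  obtain ⟨f⟩ := Cardinal.eq.mp hcard
  -- the extended families have the same relations
  let X : κ ⊕ ι → Ω := Sum.elim b x
  let Y : κ ⊕ ι → Ω := Sum.elim (c ∘ f) y
  have hcf : IsTranscendenceBasis (Algebra.adjoin k (range y)) (c ∘ f) := hc.comp_equiv f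
  have hXY : Sp k X Y := h.sum hb.1 (c ∘ f)
  have hYX : Sp k Y X := h'.sum hcf.1 b
  obtain ⟨E, hE⟩ := hXY.exists_algEquiv hYX
  have halg : ∀ {z : ι → Ω} {w : κ → Ω}, IsTranscendenceBasis (Algebra.adjoin k (range z)) w →
      Algebra.IsAlgebraic (Algebra.adjoin k (range (Sum.elim w z))) Ω := by
    intro z w hw
    have h1 : range (Sum.elim w z) = range z ∪ range w := by
      rw [Sum.elim_range, union_comm]
    have h2 : Algebra.adjoin k (range (Sum.elim w z)) =
        (Algebra.adjoin (Algebra.adjoin k (range z)) (range w)).restrictScalars k := by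
      rw [h1, Algebra.adjoin_union_eq_adjoin_adjoin]
    rw [h2]
    exact hw.isAlgebraic
  have i1 : IsAlgClosure (Algebra.adjoin k (range X)) Ω := ⟨inferInstance, halg hb⟩
  have i2 : IsAlgClosure (Algebra.adjoin k (range Y)) Ω := ⟨inferInstance, halg hcf⟩
  let σ : Ω ≃+* Ω := IsAlgClosure.equivOfEquiv Ω Ω E.toRingEquiv
  have hσ : ∀ s : Algebra.adjoin k (range X), σ (s : Ω) = ((E s : Algebra.adjoin k (range Y)) : Ω) :=
    fun s => IsAlgClosure.equivOfEquiv_algebraMap Ω Ω E.toRingEquiv s
  refine ⟨AlgEquiv.ofRingEquiv (f := σ) (fun r => ?_), fun i => ?_⟩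
  · have h1 := hσ (algebraMap k _ r)
    rw [E.commutes] at h1
    exact h1
  · have h1 : MvPolynomial.aeval X (MvPolynomial.X (Sum.inr i) : MvPolynomial (κ ⊕ ι) k) ∈
        Algebra.adjoin k (range X) := by
      rw [aeval_X]
      exact Algebra.subset_adjoin ⟨_, rfl⟩
    have h2 := (hσ ⟨_, h1⟩).trans (hE _ h1)
    have h3 : MvPolynomial.aeval X (MvPolynomial.X (Sum.inr i) : MvPolynomial (κ ⊕ ι) k) = x i := by
      rw [aeval_X]
      rfl
    have h4 : MvPolynomial.aeval Y (MvPolynomial.X (Sum.inr i) : MvPolynomial (κ ⊕ ι) k) = y i := by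
      rw [aeval_X]
      rfl
    rw [h4] at h2
    rw [← h2, ← h3]
    rfl

/-- A polynomial identity at a transcendental element is an identity. -/
lemma polynomial_eq_zero_of_transcendental {s : Set Ω} {t : Ω}
    (ht : Transcendental (Algebra.adjoin k s) t) {P : Polynomial Ω}
    (hP : ∀ n, P.coeff n ∈ Algebra.adjoin k s) (h : P.eval t = 0) : P = 0 := by
  have h1 : P ∈ Polynomial.lifts (algebraMap (Algebra.adjoin k s) Ω) := by
    rw [Polynomial.lifts_iff_coeff_lifts]
    intro n
    exact ⟨⟨P.coeff n, hP n⟩, rfl⟩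
  obtain ⟨Q, hQ⟩ := (Polynomial.mem_lifts _).mp h1
  have h2 : Polynomial.aeval t Q = 0 := by
    rw [Polynomial.aeval_def, Polynomial.eval₂_eq_eval_map, hQ, h]
  have h3 : Q = 0 := by
    by_contra hne
    exact ht ⟨Q, hne, h2⟩
  rw [← hQ, h3, Polynomial.map_zero]

end SpField

end Pool.Agent.Lib.MP_0c183c_co_P9L
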