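import Pool.Agent.Lib.MP_0c183c_co_P9L.Loci

set_option autoImplicit false

/-!
# Bridges for the loci library: `Algebra.trdeg`, ring isomorphisms over prime fields
-/

namespace Pool.Agent.Lib.MP_0c183c_co_P9L

open Set AlgebraicIndependent

section Trdeg

universe u v

variable {k : Type u} {Ω : Type v} [Field k] [Field Ω] [Algebra k Ω]

/-- `trd` is the transcendence degree of the generated field. -/
theorem trdeg_adjoin_eq_trd {s : Set Ω} (hs : s.Finite) :
    Algebra.trdeg k (IntermediateField.adjoin k s) = (trd k s : Cardinal) := by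
  set L := IntermediateField.adjoin k s with hL
  apply le_antisymm
  · refine ciSup_le' fun u => ?_
    have h1 : AlgebraicIndependent k ((↑) : u.1 → L) := u.2
    have h2 : AlgebraicIndependent k (fun i : u.1 => ((i : L) : Ω)) :=
      h1.map' (f := L.val) (Subtype.val_injective)
    have h3 : (matroid k Ω).Indep (range (fun i : u.1 => ((i : L) : Ω))) :=
      matroid_indep_iff.mpr h2.to_subtype_range
    have h4 : range (fun i : u.1 => ((i : L) : Ω)) ⊆ (matroid k Ω).closure s := by
      rintro _ ⟨i, rfl⟩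
      rw [mem_closure_iff']
      exact isAlgebraic_algebraMap (i : L)
    have h5 := h3.encard_le_eRk_of_subset h4
    rw [(matroid k Ω).eRk_closure_eq, ← coe_trd hs, encard_le_coe_iff_finite_ncard_le] at h5
    obtain ⟨h6, h7⟩ := h5
    have h8 : Function.Injective (fun i : u.1 => ((i : L) : Ω)) := h2.injective
    have h9 : Cardinal.mk u.1 = Cardinal.mk (range (fun i : u.1 => ((i : L) : Ω))) :=
      (Cardinal.mk_range_eq _ h8).symm
    have : Fintype (range (fun i : u.1 => ((i : L) : Ω))) := h6.fintype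
    rw [h9, Cardinal.mk_fintype]
    rw [← Nat.card_coe_set_eq, Nat.card_eq_fintype_card] at h7
    exact_mod_cast h7
  · obtain ⟨B, hB⟩ := (matroid k Ω).exists_isBasis s (subset_univ _)
    have h1 : AlgebraicIndependent k ((↑) : B → Ω) := matroid_indep_iff.mp hB.indep
    have hBL : ∀ b : B, (b : Ω) ∈ L := fun b =>
      IntermediateField.subset_adjoin k s (hB.subset b.2)
    have h2 : AlgebraicIndependent k (fun b : B => (⟨b, hBL b⟩ : L)) :=
      AlgebraicIndependent.of_comp L.val h1
    have h3 : Cardinal.mk B ≤ Algebra.trdeg k L := h2.cardinalMk_le_trdeg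
    have h4 := hB.encard_eq_eRk
    have hBf : B.Finite := hs.subset hB.subset
    rw [← coe_trd hs, ← hBf.cast_ncard_eq] at h4
    have h5 : B.ncard = trd k s := by exact_mod_cast h4
    have : Fintype B := hBf.fintype
    rw [← h5, ← Nat.card_coe_set_eq, Nat.card_eq_fintype_card, ← Cardinal.mk_fintype]
    exact h3

theorem trd_eq_toNat_trdeg {s : Set Ω} (hs : s.Finite) :
    trd k s = Cardinal.toNat (Algebra.trdeg k (IntermediateField.adjoin k s)) := by
  rw [trdeg_adjoin_eq_trd hs, Cardinal.toNat_natCast]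

end Trdeg

section ZMod

variable {n : ℕ} {ι R R' : Type*} [CommRing R] [Algebra (ZMod n) R] [CommRing R'] [Algebra (ZMod n) R']

/-- Ring homomorphisms preserve relations over a prime ring. -/
lemma Sp.of_ringHom (x : ι → R) (σ : R →+* R') : Sp (ZMod n) x (fun i => σ (x i)) := by
  have h : (σ.comp (algebraMap (ZMod n) R)) = algebraMap (ZMod n) R' := Subsingleton.elim _ _
  have h' : ∀ r : ZMod n, σ (algebraMap (ZMod n) R r) = algebraMap (ZMod n) R' r :=
    fun r => RingHom.congr_fun h r
  let φ : R →ₐ[ZMod n] R' := { toRingHom := σ, commutes' := h' }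
  exact Sp.map x φ

lemma Sp.of_ringHom_injective (x : ι → R) (σ : R →+* R') (hσ : Function.Injective σ) :
    Sp (ZMod n) (fun i => σ (x i)) x := by
  have h : (σ.comp (algebraMap (ZMod n) R)) = algebraMap (ZMod n) R' := Subsingleton.elim _ _
  have h' : ∀ r : ZMod n, σ (algebraMap (ZMod n) R r) = algebraMap (ZMod n) R' r :=
    fun r => RingHom.congr_fun h r
  let φ : R →ₐ[ZMod n] R' := { toRingHom := σ, commutes' := h' }
  exact Sp.of_injective x φ hσ

variable {p : ℕ} [Fact p.Prime] {Ω Ω' : Type*} [Field Ω] [Field Ω'] [Algebra (ZMod p) Ω]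
  [Algebra (ZMod p) Ω']

lemma trd_image_ringEquiv (σ : Ω ≃+* Ω') (s : Set Ω) :
    trd (ZMod p) (σ '' s) = trd (ZMod p) s := by
  have h : (σ.toRingHom.comp (algebraMap (ZMod p) Ω)) = algebraMap (ZMod p) Ω' :=
    Subsingleton.elim _ _
  let τ : Ω ≃ₐ[ZMod p] Ω' := AlgEquiv.ofRingEquiv (f := σ)
    (fun r => RingHom.congr_fun h r)
  exact trd_image τ s

end ZMod

end Pool.Agent.Lib.MP_0c183c_co_P9L
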